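import Pool.Agent.H600Z.IdC.Main

/-! Randomized id consensus against a value-oblivious scheduler needs order `(log n)^(1/3)`
expected steps for some processor. -/

open scoped ENNReal
open MeasureTheory

namespace Pool.Agent.Results.MP_2ab09f_lc.ACubeRootLog

open Pool.Agent.H600Z.IdC

/-- If `n ≥ 2 ^ (22 k ^ 3)`, then for every randomized id consensus algorithm for `n` processors
(countably many registers, values and identifiers, more than `n` identifiers, independent private
random tapes) and every assignment of distinct identifiers there are a scheduler, which sees only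
the kind and the register of pending operations, and a processor whose expected number of steps is
at least `k / 2`. -/
theorem result (k n : ℕ) (hn : 2 ^ (22 * k ^ 3) ≤ n) (R V I Ω : Type) [Countable R] [Countable V]
    [Countable I] (hI : ∃ f : Fin (n + 1) → I, Function.Injective f) [MeasurableSpace Ω]
    (μ : Fin n → Measure Ω) [∀ q, IsProbabilityMeasure (μ q)] (alg : Alg n R V I Ω)
    (hm : alg.MeasurableAct) (hs : alg.SolvesIdConsensus) (u : Fin n → I)
    (hu : Function.Injective u) :
    ∃ (A : List (Fin n → Shape R) → Fin n) (p : Fin n),
      (k : ℝ≥0∞) / 2 ≤ ∫⁻ ω, alg.steps A u ω p ∂(Measure.pi μ) :=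
  main_active k hn alg hm u hu (Measure.pi μ) (fun ω s => (hs u hu ω s).1)
    (active_of_solves alg hs hI u hu)

end Pool.Agent.Results.MP_2ab09f_lc.ACubeRootLog
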